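import Pool.Agent.W567.IV.Stm2
import Pool.Agent.W973.IV.Dyn

/-! # A periodic billiard orbit on spherical and flat boundary parts gives an unfolded chain -/

set_option autoImplicit false

open Filter Topology

namespace Pool.Agent.W460.IV

open Pool.Agent.W567.IV W973.IV

section geo

variable {E : Type} [NormedAddCommGroup E] [InnerProductSpace ℝ E] [CompleteSpace E]

theorem grad_flat_tan {f : E → ℝ} (hf : Differentiable ℝ f) {p ν : E} {h : ℝ}
    (h0 : ∀ᶠ x in 𝓝 p, f x = 0 ↔ inner ℝ ν x = h) (hp : inner ℝ ν p = h) (w : E)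
    (hw : inner ℝ ν w = 0) : inner ℝ (gradient f p) w = 0 := by
  let c : ℝ → E := fun a => p + a • w
  have hc0 : c 0 = p := by simp [c]
  have hc : HasDerivAt c w 0 := by
    have h1 : HasDerivAt (fun ε : ℝ => ε • w) ((1 : ℝ) • w) 0 := (hasDerivAt_id 0).smul_const w
    rw [one_smul] at h1
    exact h1.const_add p
  have hd := deriv_curve hf p hc0 hc
  have hz : (fun t => f (c t)) =ᶠ[𝓝 0] fun _ => (0 : ℝ) := by
    have hcont : Tendsto c (𝓝 0) (𝓝 p) := by
      have := hc.continuousAt.tendsto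
      rwa [hc0] at this
    filter_upwards [hcont.eventually h0] with t ht
    rw [ht]
    simp only [c]
    rw [inner_add_right, real_inner_smul_right, hw, hp]
    ring
  exact hd.unique ((hasDerivAt_const (0 : ℝ) (0 : ℝ)).congr_of_eventuallyEq hz)

theorem grad_flat {f : E → ℝ} (hf : Differentiable ℝ f) {p ν : E} {h : ℝ}
    (hν : inner ℝ ν ν = 1)
    (h0 : ∀ᶠ x in 𝓝 p, f x = 0 ↔ inner ℝ ν x = h) (hp : inner ℝ ν p = h) :
    gradient f p = (inner ℝ (gradient f p) ν) • ν := by
  set g := gradient f p with hg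
  have h1 : inner ℝ ν (g - (inner ℝ g ν) • ν) = 0 := by
    rw [inner_sub_right, real_inner_smul_right, hν, real_inner_comm]
    ring
  have h2 := grad_flat_tan hf h0 hp _ h1
  rw [← hg] at h2
  have h3 : inner ℝ (g - (inner ℝ g ν) • ν) (g - (inner ℝ g ν) • ν) = 0 := by
    conv_lhs => rw [inner_sub_left, real_inner_smul_left]
    rw [h2, h1]
    ring
  exact sub_eq_zero.1 (inner_self_eq_zero.1 h3)

/-- the reflection at a flat bounce point -/
theorem bounce_flat {f : E → ℝ} (hf : Differentiable ℝ f) (hg : ∀ x, f x = 0 → gradient f x ≠ 0)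
    {p ν u u' : E} {h : ℝ} (hν : inner ℝ ν ν = 1) (hfp : f p = 0)
    (h0 : ∀ᶠ x in 𝓝 p, f x = 0 ↔ inner ℝ ν x = h)
    (hu' : u' = u - (2 * inner ℝ u (gradient f p) / ‖gradient f p‖ ^ 2) • gradient f p) :
    inner ℝ ν p = h ∧ u' = u - (2 * inner ℝ ν u) • ν := by
  have hp : inner ℝ ν p = h := h0.self_of_nhds.1 hfp
  have hr := grad_flat hf hν h0 hp
  set lam := inner ℝ (gradient f p) ν with hlam
  have hg0 := hg p hfp
  have hlam0 : lam ≠ 0 := by
    intro h
    rw [h, zero_smul] at hr
    exact hg0 hr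
  have hnorm : ‖gradient f p‖ ^ 2 = lam ^ 2 := by
    rw [← real_inner_self_eq_norm_sq, hr, real_inner_smul_left, real_inner_smul_right, hν]
    ring
  refine ⟨hp, ?_⟩
  rw [hu', hnorm]
  congr 1
  conv_lhs => rw [hr]
  rw [real_inner_smul_right, smul_smul, real_inner_comm]
  congr 1
  field_simp

end geo

variable {n : ℕ}

/-- the linear map of a matrix -/
noncomputable def Lm (A : Matrix (Fin n) (Fin n) ℝ) :
    EuclideanSpace ℝ (Fin n) →ₗ[ℝ] EuclideanSpace ℝ (Fin n) where
  toFun x := WithLp.toLp 2 (A.mulVec (WithLp.ofLp x))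
  map_add' x y := by
    ext i
    simp [Matrix.mulVec_add]
  map_smul' a x := by
    ext i
    simp [Matrix.mulVec_smul]

theorem Lm_apply (A : Matrix (Fin n) (Fin n) ℝ) (x : EuclideanSpace ℝ (Fin n)) (i : Fin n) :
    Lm A x i = A.mulVec (fun j => x j) i := rfl

theorem inner_dot (x y : EuclideanSpace ℝ (Fin n)) :
    inner ℝ x y = (WithLp.ofLp x) ⬝ᵥ (WithLp.ofLp y) := by
  simp [dotProduct, PiLp.inner_apply, mul_comm]

theorem Lm_inner (A : Matrix (Fin n) (Fin n) ℝ) (hA : A.transpose * A = 1)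
    (x y : EuclideanSpace ℝ (Fin n)) : inner ℝ (Lm A x) (Lm A y) = inner ℝ x y := by
  rw [inner_dot, inner_dot]
  change A.mulVec (WithLp.ofLp x) ⬝ᵥ A.mulVec (WithLp.ofLp y) = _
  rw [Matrix.dotProduct_mulVec, Matrix.vecMul_mulVec, ← Matrix.dotProduct_mulVec, hA,
    Matrix.one_mulVec]

theorem Lm_mul (A B : Matrix (Fin n) (Fin n) ℝ) (x : EuclideanSpace ℝ (Fin n)) :
    Lm (A * B) x = Lm A (Lm B x) := by
  ext i
  simp [Lm, Matrix.mulVec_mulVec]

theorem Lm_one (x : EuclideanSpace ℝ (Fin n)) : Lm (1 : Matrix (Fin n) (Fin n) ℝ) x = x := by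
  ext i
  simp [Lm]

theorem Lm_Hou (ν : Fin n → ℝ) (x : EuclideanSpace ℝ (Fin n)) :
    Lm (Hou ν) x = x - (2 * inner ℝ (WithLp.toLp 2 ν) x) • (WithLp.toLp 2 ν) := by
  ext i
  rw [Lm_apply, inner_dot]
  simp only [Hou, Matrix.sub_mulVec, Matrix.one_mulVec, Matrix.smul_mulVec, Pi.sub_apply,
    Pi.smul_apply, PiLp.sub_apply, PiLp.smul_apply, smul_eq_mul]
  rw [Matrix.vecMulVec_mulVec]
  simp
  ring

theorem Hou_sq (ν : Fin n → ℝ) (hν : ν ⬝ᵥ ν = 1) : (Hou ν).transpose * Hou ν = 1 := by
  have h1 : (Hou ν).transpose = Hou ν := by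
    unfold Hou
    rw [Matrix.transpose_sub, Matrix.transpose_one, Matrix.transpose_smul,
      Matrix.transpose_vecMulVec]
  rw [h1]
  unfold Hou
  rw [sub_mul, mul_sub, mul_sub, one_mul, mul_one, one_mul, Matrix.smul_mul, Matrix.mul_smul,
    Matrix.vecMulVec_mul_vecMulVec, hν]
  simp only [one_smul]
  ext i j
  simp
  ring

theorem unf_orth (D : ℕ → Mir n) (N : ℕ) (hD : ∀ k, 1 ≤ k → k ≤ N → ∀ H, D k = Sum.inr H →
    H.ν ⬝ᵥ H.ν = 1) : ∀ k, k ≤ N → (unf D k).2.1.transpose * (unf D k).2.1 = 1 := by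
  intro k
  induction k with
  | zero =>
    intro _
    simp [unf]
  | succ k ih =>
    intro hk
    have ih' := ih (by omega)
    rcases h : D (k + 1) with S | H
    · have h1 : (unf D (k + 1)).2.1 = (unf D k).2.1 := by
        simp only [unf, h]
      rw [h1, ih']
    · have h1 : (unf D (k + 1)).2.1 = (unf D k).2.1 * Hou H.ν := by
        simp only [unf, h]
      rw [h1, Matrix.transpose_mul, Matrix.mul_assoc, ← Matrix.mul_assoc _ _ (Hou H.ν), ih',
        one_mul, Hou_sq _ (hD (k + 1) (by omega) hk H h)]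

theorem dyn2 : S_dyn2 := by
  intro n f hf hg N hN p u D hpN huN hDN hk
  -- facts at the bounce points
  have hB : ∀ j ≤ N, f (p j) = 0 ∧ OnMir f (p j) (D j) := by
    intro j hj
    rcases lt_or_eq_of_le hj with h | h
    · exact ⟨(hk j h).1, (hk j h).2.2.2.2.2⟩
    · rw [h, hpN, hDN]
      exact ⟨(hk 0 (by omega)).1, (hk 0 (by omega)).2.2.2.2.2⟩
  have hneg : ∀ j ≤ N, inner ℝ (u j) (gradient f (p j)) < 0 := by
    intro j hj
    rcases lt_or_eq_of_le hj with h | h
    · exact (hk j h).2.2.1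
    · rw [h, hpN, huN]
      exact (hk 0 (by omega)).2.2.1
  have hu1 : ∀ k < N, inner ℝ (u k) (u k) = 1 := by
    intro k hkN
    rw [real_inner_self_eq_norm_sq, (hk k hkN).2.1, one_pow]
  have hfl : ∀ k, ∃ τ : ℝ, k < N → 0 < τ ∧ p (k + 1) = p k + τ • u k := by
    intro k
    by_cases hkN : k < N
    · obtain ⟨τ, h0, h⟩ := (hk k hkN).2.2.2.1
      exact ⟨τ, fun _ => ⟨h0, h⟩⟩
    · exact ⟨0, fun h => absurd h hkN⟩
  choose fl hfl using hfl
  set TT : ℕ → ℝ := fun k => ∑ i ∈ Finset.range k, fl i with hTT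
  have hTTs : ∀ k, TT (k + 1) = TT k + fl k := fun k => Finset.sum_range_succ _ _
  -- spheres
  have hS : ∀ k < N, ∀ S : Sph n, D (k + 1) = Sum.inl S → 0 < S.ρ ∧
      ‖p (k + 1) - ce S‖ ^ 2 = S.ρ ∧
      u (k + 1) = u k - (2 * inner ℝ (p (k + 1) - ce S) (u k) / S.ρ) • (p (k + 1) - ce S) := by
    intro k hkN S hD
    obtain ⟨b2, b4⟩ := hB (k + 1) hkN
    rw [hD] at b4
    obtain ⟨b1, b4⟩ := b4
    simp only [sum_sq] at b4
    obtain ⟨-, -, -, -, a6, -⟩ := hk k hkN
    obtain ⟨c1, c2, -, -⟩ := bounce hf hg b1 b2 b4 a6 (hneg (k + 1) hkN)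
    exact ⟨b1, c1, c2⟩
  have hH : ∀ k < N, ∀ H : Flat n, D (k + 1) = Sum.inr H → H.ν ⬝ᵥ H.ν = 1 ∧
      inner ℝ (WithLp.toLp 2 H.ν) (p (k + 1)) = H.h ∧
      u (k + 1) = u k - (2 * inner ℝ (WithLp.toLp 2 H.ν) (u k)) •
        (WithLp.toLp 2 H.ν : EuclideanSpace ℝ (Fin n)) := by
    intro k hkN H hD
    obtain ⟨b2, b4⟩ := hB (k + 1) hkN
    rw [hD] at b4
    obtain ⟨b1, b4⟩ := b4
    have e1 : ∀ x : EuclideanSpace ℝ (Fin n), ∑ i, H.ν i * x i =
        inner ℝ (WithLp.toLp 2 H.ν : EuclideanSpace ℝ (Fin n)) x := by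
      intro x
      rw [inner_dot]
      rfl
    simp only [e1] at b4
    obtain ⟨-, -, -, -, a6, -⟩ := hk k hkN
    have hν : inner ℝ (WithLp.toLp 2 H.ν : EuclideanSpace ℝ (Fin n))
        (WithLp.toLp 2 H.ν : EuclideanSpace ℝ (Fin n)) = 1 := by
      rw [inner_dot]
      exact b1
    obtain ⟨c1, c2⟩ := bounce_flat hf hg hν b2 b4 a6
    exact ⟨b1, c1, c2⟩
  have horth := unf_orth D N (fun k h1 h2 H hH' => by
    obtain ⟨k, rfl⟩ : ∃ k', k = k' + 1 := ⟨k - 1, by omega⟩
    exact (hH k h2 H hH').1)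
  refine ⟨TT N, ?_, ?_⟩
  · exact Finset.sum_pos (fun i hi => (hfl i (Finset.mem_range.1 hi)).1)
      ⟨0, Finset.mem_range.2 (by omega)⟩
  intro t c hc
  -- the chain
  let ch : ℕ → Ch n ℂ := fun k => Nat.rec [] (fun k ih =>
    match D (k + 1) with
    | Sum.inl S => ((⟨(unf D k).2.1.mulVec S.O + (unf D k).2.2, S.ρ⟩ : Sph n),
        ((c * inner ℝ (p (k + 1) - ce S) (u k) : ℝ) : ℂ)) :: ih
    | Sum.inr _ => ih) k
  have hch0 : ch 0 = [] := rfl
  have hchS : ∀ k S, D (k + 1) = Sum.inl S → ch (k + 1) =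
      ((⟨(unf D k).2.1.mulVec S.O + (unf D k).2.2, S.ρ⟩ : Sph n),
        ((c * inner ℝ (p (k + 1) - ce S) (u k) : ℝ) : ℂ)) :: ch k := by
    intro k S h
    simp only [ch, h]
  have hchH : ∀ k H, D (k + 1) = Sum.inr H → ch (k + 1) = ch k := by
    intro k S h
    simp only [ch, h]
  set l0 : Line n ℂ := cl (p 0 + t • u 0) (c • u 0) with hl0
  have hmap : ∀ k, (ch k).map Prod.fst = (unf D k).1 := by
    intro k
    induction k with
    | zero => rfl
    | succ k ih =>
      rcases h : D (k + 1) with S | H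
      · rw [hchS k S h, List.map_cons, ih]
        simp only [unf, h]
      · rw [hchH k H h, ih]
        simp only [unf, h]
  have hmain : ∀ k, k ≤ N → endl (ch k) l0 =
      cl (Lm (unf D k).2.1 (p k - (TT k - t) • u k) + WithLp.toLp 2 (unf D k).2.2)
        (Lm (unf D k).2.1 (c • u k)) ∧ WVal (ch k) l0 := by
    intro k
    induction k with
    | zero =>
      intro _
      refine ⟨?_, trivial⟩
      rw [hch0]
      change l0 = _
      have e0 : TT 0 = 0 := Finset.sum_range_zero _
      have e1 : (unf D 0).2.1 = 1 := rfl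
      have e2 : (unf D 0).2.2 = 0 := rfl
      rw [hl0, e0, e1, e2, Lm_one, Lm_one, zero_sub, neg_smul, sub_neg_eq_add,
        WithLp.toLp_zero, add_zero]
    | succ k ih =>
      intro hk1
      obtain ⟨ih1, ih2⟩ := ih (by omega)
      have hkN : k < N := hk1
      have hA := horth k (by omega)
      set A := (unf D k).2.1 with hAdef
      set b := (unf D k).2.2 with hbdef
      rcases hD : D (k + 1) with S | H
      · obtain ⟨hρ0, hn1, hu2⟩ := hS k hkN S hD
        have eA : (unf D (k + 1)).2.1 = A := by simp only [unf, hD, hAdef]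
        have eb : (unf D (k + 1)).2.2 = b := by simp only [unf, hD, hbdef]
        rw [eA, eb]
        set O := ce S with hO
        set ρ := S.ρ with hρ'
        set y := p (k + 1) - O with hy
        set δ := inner ℝ y (u k) with hδ
        have hyy : inner ℝ y y = ρ := by rw [real_inner_self_eq_norm_sq, hn1]
        have huu := hu1 k hkN
        set θ := TT (k + 1) - t with hθ
        set S' : Sph n := ⟨A.mulVec S.O + b, ρ⟩ with hS'
        have hce : ce S' = Lm A O + WithLp.toLp 2 b := by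
          ext i
          simp [ce, hS', Lm, hO]
        have ex : p k - (TT k - t) • u k - O = y - θ • u k := by
          rw [hy, hθ, hTTs, (hfl k hkN).2]
          simp only [sub_smul, add_smul]
          abel
        set x := Lm A (p k - (TT k - t) • u k) + WithLp.toLp 2 b with hx
        set v := Lm A (c • u k) with hv
        have ex' : x - ce S' = Lm A (p k - (TT k - t) • u k - O) := by
          rw [hce, hx, map_sub (Lm A) _ O]
          abel
        have ixu : inner ℝ (x - ce S') v = c * δ - c * θ := by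
          rw [ex', hv, Lm_inner A hA, ex, inner_sub_left, real_inner_smul_right,
            real_inner_smul_left, real_inner_smul_right, huu]
          ring
        have iuu : inner ℝ v v = c ^ 2 := by
          rw [hv, Lm_inner A hA, real_inner_smul_left, real_inner_smul_right, huu]
          ring
        have ixx : inner ℝ (x - ce S') (x - ce S') = ρ - 2 * θ * δ + θ ^ 2 := by
          rw [ex', Lm_inner A hA, ex, inner_sub_smul, hyy, huu]
          ring
        have hτ : θ / c = (c * δ - inner ℝ (x - ce S') v) / inner ℝ v v := by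
          rw [ixu, iuu]
          field_simp
          ring
        have hyv : Lm A y = (x - ce S') + (θ / c) • v := by
          rw [ex', hv, ex, ← map_smul, ← map_add, smul_smul, div_mul_cancel₀ _ hc.ne']
          congr 1
          abel
        rw [hchS k S hD]
        refine ⟨?_, ih2, ?_⟩
        · change RR S' ((c * δ : ℝ) : ℂ) (endl (ch k) l0) = _
          rw [ih1, RR_cl S' (c * δ) _ _ (Lm A y) (θ / c) hτ hyv]
          have e3 : S'.ρ = ρ := rfl
          rw [e3]
          congr 1
          · rw [hx, add_right_comm, ← map_smul, ← map_add]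
            congr 2
            rw [hu2]
            have e1 : p k - (TT k - t) • u k = p (k + 1) - θ • u k := by
              have := ex
              rw [hy] at this
              have h2 : p k - (TT k - t) • u k - O + O = p (k + 1) - O - θ • u k + O := by
                rw [this]
              rw [sub_add_cancel] at h2
              rw [h2]
              abel
            have e2 : θ / c * (2 * (c * δ) / ρ) = θ * (2 * δ / ρ) := by
              field_simp
            rw [e1, smul_sub θ (u k) _, smul_smul θ _ y, e2]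
            abel
          · rw [hv, ← map_smul, ← map_sub]
            congr 1
            rw [hu2, smul_sub c (u k) _, smul_smul c _ y]
            congr 2
            ring
        · change ((c * δ : ℝ) : ℂ) ^ 2 = DD S' (endl (ch k) l0)
          rw [ih1, DD_cl, ixu, iuu, ixx]
          have e3 : S'.ρ = ρ := rfl
          rw [e3]
          norm_cast
          ring
      · obtain ⟨hν, hph, hu2⟩ := hH k hkN H hD
        have eA : (unf D (k + 1)).2.1 = A * Hou H.ν := by simp only [unf, hD, hAdef]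
        have eb : (unf D (k + 1)).2.2 = A.mulVec ((2 * H.h) • H.ν) + b := by
          simp only [unf, hD, hAdef, hbdef]
        rw [eA, eb, hchH k H hD]
        refine ⟨?_, ih2⟩
        rw [ih1, Lm_mul, Lm_mul]
        set ν : EuclideanSpace ℝ (Fin n) := WithLp.toLp 2 H.ν with hνdef
        have hνν : inner ℝ ν ν = 1 := by
          rw [inner_dot]
          exact hν
        have eu : Lm (Hou H.ν) (u (k + 1)) = u k := by
          rw [Lm_Hou, ← hνdef, hu2, inner_sub_right, real_inner_smul_right, hνν]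
          have : 2 * (inner ℝ ν (u k) - 2 * inner ℝ ν (u k) * 1) = -(2 * inner ℝ ν (u k)) := by
            ring
          rw [this, neg_smul]
          abel
        have ep : Lm (Hou H.ν) (p (k + 1)) = p (k + 1) - (2 * H.h) • ν := by
          rw [Lm_Hou, ← hνdef, hph]
        have eb' : (WithLp.toLp 2 (A.mulVec ((2 * H.h) • H.ν) + b) : EuclideanSpace ℝ (Fin n)) =
            Lm A ((2 * H.h) • ν) + WithLp.toLp 2 b := by
          ext i
          simp [Lm, hνdef, Matrix.mulVec_smul]
        congr 1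
        · rw [eb', ← add_assoc, ← map_add]
          congr 2
          rw [map_sub, map_smul, ep, eu, hTTs, (hfl k hkN).2]
          simp only [sub_smul, add_smul]
          abel
        · rw [map_smul (Lm (Hou H.ν)), eu]
  have e0 : ((fun k => ((p 0 k + t * u 0 k : ℝ) : ℂ)), (fun k => ((c * u 0 k : ℝ) : ℂ))) = l0 := by
    rw [hl0]
    unfold cl
    apply Prod.ext
    · funext k
      simp
    · funext k
      simp
  refine ⟨ch N, hmap N, ?_, ?_⟩
  · rw [e0]
    exact (hmain N le_rfl).2
  · rw [e0, (hmain N le_rfl).1, huN, hpN]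
    rfl

end Pool.Agent.W460.IV
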